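import Pool.Agent.Helper64.IG.Goals

/-! Packet PAIR: the pairing for a basis. -/

namespace Pool.Agent.Helper64.IG.PkPAIR

open Pool.Agent.Helper64.IG

universe u

section lists

variable {α : Type*}

theorem sel_append (l1 l2 : List α) (b1 b2 : List Bool) (h : b1.length = l1.length) :
    sel (l1 ++ l2) (b1 ++ b2) = sel l1 b1 ++ sel l2 b2 := by
  induction l1 generalizing b1 with
  | nil =>
    have : b1 = [] := List.eq_nil_of_length_eq_zero h
    subst this
    cases b2 <;> simp [sel]
  | cons a l ih =>
    cases b1 with
    | nil => simp at h
    | cons b bs =>
      have h' : bs.length = l.length := by simpa using h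
      cases b
      · simp [sel, ih bs h']
      · simp [sel, ih bs h']

theorem sel_length_le (l : List α) (b : List Bool) : (sel l b).length ≤ l.length := by
  induction l generalizing b with
  | nil => cases b <;> simp [sel]
  | cons a l ih =>
    cases b with
    | nil => simp [sel]
    | cons b bs =>
      have := ih bs
      cases b <;> simp [sel] <;> omega

theorem sel_full (l : List α) (b : List Bool) (hb : b.length = l.length)
    (h : (sel l b).length = l.length) : b = List.replicate l.length true := by
  induction l generalizing b with
  | nil => simpa using hb
  | cons a l ih =>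
    cases b with
    | nil => simp at hb
    | cons b bs =>
      have hb' : bs.length = l.length := by simpa using hb
      cases b
      · have := sel_length_le l bs
        simp [sel] at h
        omega
      · simp [sel] at h
        rw [ih bs hb' h]
        simp [List.replicate_succ]

theorem sel_replicate (l : List α) : sel l (List.replicate l.length true) = l := by
  induction l with
  | nil => simp [sel]
  | cons a l ih => simp [sel, List.replicate_succ, ih]

theorem pair_len (W : List α) : ∀ (I J : List Bool), I.length = W.length →
    J.length = W.length → (∀ x ∈ sel W I, x ∉ sel W J) →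
    (sel W I).length + (sel W J).length ≤ W.length ∧
      ((sel W I).length + (sel W J).length = W.length → J = I.map not) := by
  induction W with
  | nil =>
    intro I J hI hJ _
    have h1 : I = [] := List.eq_nil_of_length_eq_zero hI
    have h2 : J = [] := List.eq_nil_of_length_eq_zero hJ
    subst h1
    subst h2
    simp [sel]
  | cons a W ih =>
    intro I J hI hJ hd
    cases I with
    | nil => simp at hI
    | cons i I =>
      cases J with
      | nil => simp at hJ
      | cons j J =>
        have hI' : I.length = W.length := by simpa using hI
        have hJ' : J.length = W.length := by simpa using hJ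
        have hd' : ∀ x ∈ sel W I, x ∉ sel W J := by
          intro x hx hx2
          refine hd x ?_ ?_
          · cases i
            · simpa [sel] using hx
            · simp [sel, hx]
          · cases j
            · simpa [sel] using hx2
            · simp [sel, hx2]
        obtain ⟨h1, h2⟩ := ih I J hI' hJ' hd'
        cases i <;> cases j
        · simp only [sel, List.length_cons, List.map_cons, Bool.not_false]
          exact ⟨by omega, fun h => by omega⟩
        · simp only [sel, List.length_cons, List.map_cons, Bool.not_false]
          exact ⟨by omega, fun h => by rw [h2 (by omega)]⟩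
        · simp only [sel, List.length_cons, List.map_cons, Bool.not_true]
          exact ⟨by omega, fun h => by rw [h2 (by omega)]⟩
        · exact absurd (by simp [sel]) (hd a (by simp [sel]))

theorem perm_sel (W : List α) : ∀ I : List Bool, I.length = W.length →
    (sel W I ++ sel W (I.map not)).Perm W := by
  induction W with
  | nil =>
    intro I hI
    have h1 : I = [] := List.eq_nil_of_length_eq_zero hI
    subst h1
    simp [sel]
  | cons a W ih =>
    intro I hI
    cases I with
    | nil => simp at hI
    | cons i I =>
      have hI' : I.length = W.length := by simpa using hI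
      have h := ih I hI'
      cases i
      · simp only [sel, List.map_cons, Bool.not_false]
        exact List.perm_middle.trans (h.cons a)
      · simp only [sel, List.map_cons, Bool.not_true, List.cons_append]
        exact h.cons a

end lists

variable {K : Type u} [Field K] {p : ℕ}

theorem dl_ne_zero_iff (l : List (Fin p → K)) :
    dl l ≠ 0 ↔ l.length = p ∧ LinearIndependent K l.get := by
  unfold dl
  by_cases h : l.length = p
  · rw [dif_pos h]
    have h1 : LinearIndependent K l.get ↔
        LinearIndependent K (fun j : Fin p => l.get (Fin.cast h.symm j)) :=
      (linearIndependent_equiv (finCongr h.symm) (f := l.get)).symm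
    rw [h1]
    have h2 := Matrix.linearIndependent_cols_iff_isUnit
      (A := (Matrix.of fun i j : Fin p => l.get (Fin.cast h.symm j) i))
    have h3 : (Matrix.of fun i j : Fin p => l.get (Fin.cast h.symm j) i).col =
        fun j : Fin p => l.get (Fin.cast h.symm j) := by
      funext j i
      rfl
    rw [h3, Matrix.isUnit_iff_isUnit_det, isUnit_iff_ne_zero] at h2
    rw [h2]
    exact ⟨fun h4 => ⟨h, h4⟩, fun h4 => h4.2⟩
  · rw [dif_neg h]
    simp [h]

theorem linInd_perm {L M : List (Fin p → K)} (h : L.Perm M) (hL : LinearIndependent K L.get) :
    LinearIndependent K M.get := by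
  have hLn : L.Nodup := List.nodup_iff_injective_get.2 hL.injective
  have hMn : M.Nodup := h.nodup_iff.1 hLn
  have hr : Set.range M.get = Set.range L.get := by
    rw [Set.range_list_get, Set.range_list_get]
    ext x
    exact h.mem_iff.symm
  rw [← linearIndepOn_id_range_iff (List.nodup_iff_injective_get.1 hMn), hr]
  exact (linearIndepOn_id_range_iff hL.injective).2 hL

theorem key (u0 W C v0 : List (Fin p → K))
    (hli : LinearIndependent K (u0 ++ W ++ C ++ v0).get) (hlen : (u0 ++ W ++ C ++ v0).length = p)
    (I1 I2 J2 J1 : List Bool) (h1 : I1.length = u0.length) (h2 : I2.length = W.length)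
    (h3 : J2.length = W.length) (h4 : J1.length = v0.length) :
    dl (sel (u0 ++ W) (I1 ++ I2) ++ C ++ sel (W ++ v0) (J2 ++ J1)) ≠ 0 ↔
      (I1 = List.replicate u0.length true ∧ J1 = List.replicate v0.length true ∧
        J2 = I2.map not) := by
  rw [dl_ne_zero_iff, sel_append _ _ _ _ h1, sel_append _ _ _ _ h3]
  constructor
  · rintro ⟨hl, hi⟩
    have hn : (sel u0 I1 ++ sel W I2 ++ C ++ (sel W J2 ++ sel v0 J1)).Nodup :=
      List.nodup_iff_injective_get.2 hi.injective
    have hd : ∀ x ∈ sel W I2, x ∉ sel W J2 := by
      intro x hx hx2
      rw [List.nodup_append] at hn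
      exact hn.2.2 x (by simp [hx]) x (by simp [hx2]) rfl
    obtain ⟨g1, g2⟩ := pair_len W I2 J2 h2 h3 hd
    have g3 := sel_length_le u0 I1
    have g4 := sel_length_le v0 J1
    simp only [List.length_append] at hl hlen
    refine ⟨sel_full u0 I1 h1 (by omega), sel_full v0 J1 h4 (by omega), g2 (by omega)⟩
  · rintro ⟨r1, r2, r3⟩
    subst r1
    subst r2
    subst r3
    rw [sel_replicate, sel_replicate]
    have hp : (u0 ++ W ++ C ++ v0).Perm
        (u0 ++ sel W I2 ++ C ++ (sel W (I2.map not) ++ v0)) := by
      have e1 : u0 ++ W ++ C ++ v0 = u0 ++ (W ++ (C ++ v0)) := by simp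
      have e2 : u0 ++ sel W I2 ++ C ++ (sel W (I2.map not) ++ v0) =
          u0 ++ (sel W I2 ++ (C ++ (sel W (I2.map not) ++ v0))) := by simp
      rw [e1, e2]
      refine List.Perm.append_left u0 ?_
      have e3 : (sel W I2 ++ (C ++ (sel W (I2.map not) ++ v0))).Perm
          (sel W I2 ++ (sel W (I2.map not) ++ (C ++ v0))) := by
        refine List.Perm.append_left _ ?_
        rw [← List.append_assoc, ← List.append_assoc]
        exact List.Perm.append_right v0 List.perm_append_comm
      refine List.Perm.trans ?_ e3.symm
      rw [← List.append_assoc (sel W I2)]
      exact List.Perm.append_right _ (perm_sel W I2 h2).symm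
    exact ⟨hp.length_eq.symm.trans hlen, linInd_perm hp hli⟩

theorem pair : G_PAIR.{u} := by
  intro K _ p u0 W C v0 hli hlen
  classical
  set g : List Bool → (List Bool → K) := fun I J =>
    if J.length = (W ++ v0).length then dl (sel (u0 ++ W) I ++ C ++ sel (W ++ v0) J) else 0 with hg
  set G : List.Vector Bool W.length → (List Bool → K) :=
    fun x => g (List.replicate u0.length true ++ x.1) with hG
  have hval : ∀ (I1 I2 J2 J1 : List Bool), I1.length = u0.length → I2.length = W.length →
      J2.length = W.length → J1.length = v0.length →
      (g (I1 ++ I2) (J2 ++ J1) ≠ 0 ↔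
        (I1 = List.replicate u0.length true ∧ J1 = List.replicate v0.length true ∧
        J2 = I2.map not)) := by
    intro I1 I2 J2 J1 h1 h2 h3 h4
    rw [hg]
    simp only
    rw [if_pos (by simp [h3, h4])]
    exact key u0 W C v0 hli hlen I1 I2 J2 J1 h1 h2 h3 h4
  have hzero : ∀ (I1 I2 : List Bool), I1.length = u0.length → I2.length = W.length →
      I1 ≠ List.replicate u0.length true → g (I1 ++ I2) = 0 := by
    intro I1 I2 h1 h2 h3
    funext J
    by_cases hJ : J.length = (W ++ v0).length
    · by_contra hne
      have hJ' : J = J.take W.length ++ J.drop W.length := (List.take_append_drop _ _).symm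
      rw [List.length_append] at hJ
      rw [hJ'] at hne
      exact h3 ((hval I1 I2 _ _ h1 h2 (by rw [List.length_take]; omega)
        (by rw [List.length_drop]; omega)).1 hne).1
    · rw [hg]
      simp only
      rw [if_neg hJ]
      rfl
  have hli2 : LinearIndependent K G := by
    rw [linearIndependent_iff']
    intro s c hc x hx
    have h1 := congrFun hc (x.1.map not ++ List.replicate v0.length true)
    rw [Finset.sum_apply, Finset.sum_eq_single x] at h1
    · have h2 : G x (x.1.map not ++ List.replicate v0.length true) ≠ 0 :=
        (hval _ _ _ _ (by simp) x.2 (by simp [x.2]) (by simp)).2 ⟨rfl, rfl, rfl⟩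
      simp only [Pi.smul_apply, smul_eq_mul, Pi.zero_apply, mul_eq_zero] at h1
      exact h1.resolve_right h2
    · intro y _ hyx
      have h2 : G y (x.1.map not ++ List.replicate v0.length true) = 0 := by
        by_contra hne
        have h3 := (hval _ _ _ _ (by simp) y.2 (by simp [x.2]) (by simp)).1 hne
        apply hyx
        apply Subtype.ext
        have h4 := congrArg (List.map not) h3.2.2
        simp only [List.map_map] at h4
        have h5 : (not ∘ not) = id := by
          funext b
          simp
        rw [h5, List.map_id, List.map_id] at h4
        exact h4.symm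
      simp [h2]
    · intro h
      exact absurd hx h
  have hspan : Submodule.span K {f : List Bool → K | ∃ I : List Bool,
      I.length = (u0 ++ W).length ∧ f = g I} = Submodule.span K (Set.range G) := by
    apply le_antisymm
    · rw [Submodule.span_le]
      rintro f ⟨I, hI, rfl⟩
      rw [List.length_append] at hI
      have hI' : I = I.take u0.length ++ I.drop u0.length := (List.take_append_drop _ _).symm
      have k1 : (I.take u0.length).length = u0.length := by rw [List.length_take]; omega
      have k2 : (I.drop u0.length).length = W.length := by rw [List.length_drop]; omega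
      rw [hI']
      by_cases h : I.take u0.length = List.replicate u0.length true
      · rw [h]
        exact Submodule.subset_span ⟨⟨I.drop u0.length, k2⟩, rfl⟩
      · rw [hzero _ _ k1 k2 h]
        exact Submodule.zero_mem _
    · apply Submodule.span_mono
      rintro f ⟨x, rfl⟩
      exact ⟨_, by simp [x.2], rfl⟩
  have hfin := finrank_span_eq_card hli2
  rw [← hspan, card_vector, Fintype.card_bool] at hfin
  exact hfin

end Pool.Agent.Helper64.IG.PkPAIR
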