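import Pool.Agent.Helper64.IG.Goals

/-! Packet TR: transitivity of gap embeddings. -/

namespace Pool.Agent.Helper64.IG.PkTR

open Pool.Agent.Helper64.IG Tr

universe u

variable {X Y Z : Type u}

theorem dn_lab {k : ℕ} {t f : Tr X} (h : Dn k t f) : f.lab = k := by
  induction h with
  | here f h => exact h
  | left l x b _ _ ih => exact ih
  | right l x a _ _ ih => exact ih

theorem dn_le {k : ℕ} {t f : Tr X} (h : Dn k t f) : k ≤ t.lab := by
  cases h with
  | here _ h => exact h.ge
  | left l x b hl _ => exact hl.le
  | right l x a hl _ => exact hl.le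

theorem step_lab {t f : Tr X} (h : Step t f) : f.lab = t.lab := by
  cases h with
  | left k x b h => exact dn_lab h
  | right k x a h => exact dn_lab h

theorem dn_size {k : ℕ} {t f : Tr X} (h : Dn k t f) : f.size ≤ t.size := by
  induction h with
  | here f h => exact le_rfl
  | left l x b _ _ ih => exact ih.trans (by simp only [Tr.size]; omega)
  | right l x a _ _ ih => exact ih.trans (by simp only [Tr.size]; omega)

theorem step_size {t f : Tr X} (h : Step t f) : f.size < t.size := by
  cases h with
  | left k x b h =>
    have := dn_size h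
    simp only [Tr.size]
    omega
  | right k x a h =>
    have := dn_size h
    simp only [Tr.size]
    omega

theorem emb_lab {R : X → Y → Prop} {s : Tr X} {t : Tr Y} (h : Emb R s t) : s.lab = t.lab := by
  induction h with
  | leaf k x y _ => rfl
  | node k x y a b c d _ _ _ _ _ => rfl
  | skip s t f hs _ ih => exact ih.trans (step_lab hs)

theorem dn_trans {k l : ℕ} (hkl : k < l) {a g f : Tr X} (h : Dn l a g) (hf : Dn k g f) :
    Dn k a f := by
  induction h with
  | here g _ => exact hf
  | left l' x b hl _ ih => exact Dn.left l' x b (hkl.trans hl) (ih hf)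
  | right l' x a hl _ ih => exact Dn.right l' x a (hkl.trans hl) (ih hf)

theorem step_dn {k : ℕ} {t g f : Tr X} (hk : k < t.lab) (h : Step t g) (hf : Dn k g f) :
    Dn k t f := by
  cases h with
  | left l x b h => exact Dn.left l x b hk (dn_trans hk h hf)
  | right l x a h => exact Dn.right l x a hk (dn_trans hk h hf)

theorem emb_dn {R : X → Y → Prop} {k : ℕ} {c : Tr X} {c' : Tr Y} (h : Emb R c c') :
    ∀ f : Tr X, Dn k c f → ∃ f' : Tr Y, Dn k c' f' ∧ Emb R f f' := by
  induction h with
  | leaf l x y hxy =>
    intro f hf
    cases hf with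
    | here _ h => exact ⟨_, Dn.here _ h, Emb.leaf l x y hxy⟩
  | node l x y a b c d hxy hac hbd iha ihb =>
    intro f hf
    cases hf with
    | here _ h => exact ⟨_, Dn.here _ h, Emb.node l x y a b c d hxy hac hbd⟩
    | left _ _ _ hl h =>
      obtain ⟨f', h1, h2⟩ := iha f h
      exact ⟨f', Dn.left l y d hl h1, h2⟩
    | right _ _ _ hl h =>
      obtain ⟨f', h1, h2⟩ := ihb f h
      exact ⟨f', Dn.right l y c hl h1, h2⟩
  | skip s t g hs he ih =>
    intro f hf
    have hlab : s.lab = t.lab := (emb_lab he).trans (step_lab hs)
    rcases (dn_le hf).lt_or_eq with hlt | heq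
    · obtain ⟨f', h1, h2⟩ := ih f hf
      exact ⟨f', step_dn (by omega) hs h1, h2⟩
    · have hfs : f = s := by
        cases hf with
        | here _ h => rfl
        | left l x b hl _ => exact absurd heq hl.ne
        | right l x a hl _ => exact absurd heq hl.ne
      subst hfs
      exact ⟨t, Dn.here _ (by omega), Emb.skip f t g hs he⟩

theorem emb_trans {R : X → Y → Prop} {S : Y → Z → Prop} {Q : X → Z → Prop}
    (hQ : ∀ x y z, R x y → S y z → Q x z) :
    ∀ (n : ℕ) (s : Tr X) (t : Tr Y) (v : Tr Z), v.size ≤ n → Emb R s t → Emb S t v →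
      Emb Q s v := by
  intro n
  induction n with
  | zero =>
    intro s t v hv _ _
    cases v <;> simp only [Tr.size] at hv <;> omega
  | succ n ih =>
    intro s t v hv hst htv
    cases htv with
    | skip _ _ f hs he =>
      have := step_size hs
      exact Emb.skip _ _ f hs (ih s t f (by omega) hst he)
    | leaf k x y hxy =>
      cases hst with
      | leaf _ x' _ h => exact Emb.leaf k x' y (hQ _ _ _ h hxy)
      | skip _ _ f hs _ => cases hs
    | node k y z c d c' d' hyz hcc hdd =>
      simp only [Tr.size] at hv
      cases hst with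
      | node _ x _ a b _ _ hxy hac hbd =>
        exact Emb.node k x z a b c' d' (hQ _ _ _ hxy hyz)
          (ih a c c' (by omega) hac hcc) (ih b d d' (by omega) hbd hdd)
      | skip _ _ f hs he =>
        cases hs with
        | left _ _ _ hd =>
          obtain ⟨f', h1, h2⟩ := emb_dn hcc f hd
          have := dn_size h1
          exact Emb.skip _ _ f' (Step.left k z d' h1) (ih s f f' (by omega) he h2)
        | right _ _ _ hd =>
          obtain ⟨f', h1, h2⟩ := emb_dn hdd f hd
          have := dn_size h1
          exact Emb.skip _ _ f' (Step.right k z c' h1) (ih s f f' (by omega) he h2)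

theorem tr : G_TR.{u} := by
  intro X Y Z R S Q hQ s t v hst htv
  exact emb_trans hQ v.size s t v le_rfl hst htv

end Pool.Agent.Helper64.IG.PkTR
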